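import Mathlib

/-!
# Compact action realizations need not exist on Cantor space (problem MP_04fd10_lc, Q1 as posed)

`E` below is the orbit relation of a continuous action of `ℤ` on a compact metrizable space
(the disjoint union of Cantor space, on which `ℤ` acts trivially, and the one point
compactification of an infinite discrete orbit).  It has exactly one infinite class (and all
other classes are singletons), so on a perfect space it is not the orbit relation of a
continuous action of a countable group: the set of points moved by a group element is open.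
The same holds with a class of any finite size at least two in place of the infinite one.
-/

open Set Topology

namespace Pool.Agent.Results.MP_04fd10_lc.NotOnCantor

/-- `E` is a countable Borel equivalence relation on `X`. -/
structure IsCBER {X : Type} [MeasurableSpace X] (E : X → X → Prop) : Prop where
  equiv : Equivalence E
  borel : MeasurableSet {p : X × X | E p.1 p.2}
  ctbl : ∀ x, {y | E x y}.Countable

/-- `E` is Borel isomorphic to the orbit equivalence relation of a continuous action of a
countable group on the space `K`. -/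
def RealizedOn {X : Type} [MeasurableSpace X] (E : X → X → Prop)
    (K : Type) [TopologicalSpace K] : Prop :=
  ∃ (Γ : Type) (_ : Group Γ) (_ : Countable Γ) (_ : MulAction Γ K),
    (∀ γ : Γ, Continuous fun y : K => γ • y) ∧
    ∃ f : X → K, Function.Bijective f ∧ (@Measurable X K _ (borel K) f) ∧
      ∀ x y, E x y ↔ ∃ γ : Γ, f y = γ • f x

/-- On a space all of whose nonempty open sets are uncountable the set of points in nontrivial
classes of a realizable relation is empty or uncountable. -/
theorem not_realized {X : Type} [MeasurableSpace X] (E : X → X → Prop)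
    {K : Type} [TopologicalSpace K] [T2Space K]
    (hK : ∀ U : Set K, IsOpen U → U.Nonempty → ¬ U.Countable)
    (hE : {x | ∃ y, y ≠ x ∧ E x y}.Countable) (hne : ∃ x y, y ≠ x ∧ E x y) :
    ¬ RealizedOn E K := by
  rintro ⟨Γ, _, _, _, hc, f, hf, -, hr⟩
  obtain ⟨x, y, hxy, hE'⟩ := hne
  obtain ⟨γ, hγ⟩ := (hr x y).1 hE'
  have hopen : IsOpen {z : K | γ • z ≠ z} := isOpen_ne_fun (hc γ) continuous_id
  refine hK _ hopen ⟨f x, ?_⟩ ?_
  · show γ • f x ≠ f x
    rw [← hγ]; exact fun h => hxy (hf.1 h)
  · refine (hE.image f).mono ?_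
    intro z hz
    obtain ⟨a, rfl⟩ := hf.2 z
    obtain ⟨b, hb⟩ := hf.2 (γ • f a)
    refine ⟨a, ⟨b, ?_, (hr a b).2 ⟨γ, hb⟩⟩, rfl⟩
    rintro rfl
    exact hz hb.symm

theorem cantor_open (U : Set (ℕ → Bool)) (hU : IsOpen U) (hne : U.Nonempty) :
    ¬ U.Countable := by
  obtain ⟨x, hx⟩ := hne
  rw [isOpen_pi_iff] at hU
  obtain ⟨I, u, hu, hs⟩ := hU x hx
  intro hcount
  obtain ⟨N, hN⟩ : ∃ N, ∀ i ∈ I, i < N := by
    obtain ⟨M, hM⟩ := I.bddAbove
    exact ⟨M + 1, fun i hi => Nat.lt_succ_of_le (hM hi)⟩
  let g : (ℕ → Bool) → (ℕ → Bool) := fun z i => if i < N then x i else z (i - N)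
  have hg : Function.Injective g := by
    intro z w h
    funext i
    have := congrFun h (i + N)
    simpa [g] using this
  have hmem : ∀ z, g z ∈ U := by
    intro z
    apply hs
    intro i hi
    have : g z i = x i := by simp [g, hN i hi]
    rw [this]; exact (hu i hi).2
  have hu : (univ : Set (ℕ → Bool)).Countable :=
    (hcount.preimage_of_injOn (f := g) hg.injOn).mono (fun z _ => hmem z)
  have hc : Countable (ℕ → Bool) := Set.countable_univ_iff.1 hu
  have h1 := Cardinal.mk_le_aleph0 (α := ℕ → Bool)
  have h2 : Cardinal.mk (ℕ → Bool) = Cardinal.continuum := by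
    rw [← Cardinal.power_def, Cardinal.mk_bool, Cardinal.mk_nat, Cardinal.two_power_aleph0]
  rw [h2] at h1
  exact absurd h1 (not_le.2 Cardinal.aleph0_lt_continuum)

/-- The orbit relation of a continuous action of a countable group on a compact metrizable space
is a countable Borel equivalence relation (for the Borel sets of the space). -/
theorem orbit_isCBER {K Γ : Type} [TopologicalSpace K] [CompactSpace K]
    [TopologicalSpace.MetrizableSpace K] [mK : MeasurableSpace K] [BorelSpace K]
    [Group Γ] [Countable Γ] [MulAction Γ K] (hc : ∀ γ : Γ, Continuous fun y : K => γ • y) :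
    IsCBER (fun x y : K => ∃ γ : Γ, y = γ • x) := by
  have _inst : SecondCountableTopology K := by
    let _m := TopologicalSpace.metrizableSpaceMetric K
    infer_instance
  refine ⟨⟨fun x => ⟨1, by simp⟩, ?_, ?_⟩, ?_, ?_⟩
  · rintro x y ⟨γ, rfl⟩; exact ⟨γ⁻¹, by simp⟩
  · rintro x y z ⟨γ, rfl⟩ ⟨δ, rfl⟩; exact ⟨δ * γ, by simp [mul_smul]⟩
  · have : {p : K × K | ∃ γ : Γ, p.2 = γ • p.1} = ⋃ γ : Γ, {p : K × K | p.2 = γ • p.1} := by
      ext p; simp
    rw [this]
    refine MeasurableSet.iUnion fun γ => ?_
    exact (isClosed_eq continuous_snd ((hc γ).comp continuous_fst)).measurableSet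
  · intro x
    exact (Set.countable_range (fun γ : Γ => γ • x)).mono (by rintro y ⟨γ, rfl⟩; exact ⟨γ, rfl⟩)

/-- `Γ` acts trivially on Cantor space and by the given action on `L`. -/
instance sumAction {Γ L : Type} [Group Γ] [MulAction Γ L] : MulAction Γ ((ℕ → Bool) ⊕ L) where
  smul γ z := Sum.map id (fun l => γ • l) z
  one_smul z := by
    rcases z with a | l
    · rfl
    · exact congrArg Sum.inr (one_smul Γ l)
  mul_smul γ δ z := by
    rcases z with a | l
    · rfl
    · exact congrArg Sum.inr (mul_smul γ δ l)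

theorem smul_inl {Γ L : Type} [Group Γ] [MulAction Γ L] (γ : Γ) (a : ℕ → Bool) :
    γ • (Sum.inl a : (ℕ → Bool) ⊕ L) = Sum.inl a := rfl

theorem smul_inr {Γ L : Type} [Group Γ] [MulAction Γ L] (γ : Γ) (l : L) :
    γ • (Sum.inr l : (ℕ → Bool) ⊕ L) = Sum.inr (γ • l) := rfl

/-- The common part of the examples: `L` is a countable compact metrizable space with a continuous
action of a countable group, `O` one orbit of it with at least two points, and all other points
are fixed. -/
theorem example_main {Γ L : Type} [Group Γ] [Countable Γ] [MulAction Γ L] [Countable L]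
    [TopologicalSpace L] [CompactSpace L] [TopologicalSpace.MetrizableSpace L]
    (hc : ∀ γ : Γ, Continuous fun y : L => γ • y) (l₀ : L) (γ₀ : Γ) (hγ₀ : γ₀ • l₀ ≠ l₀)
    (hfix : ∀ l : L, (¬ ∃ γ : Γ, l = γ • l₀) → ∀ γ : Γ, γ • l = l) :
    ∃ (X : Type) (_ : MeasurableSpace X) (_ : StandardBorelSpace X) (E : X → X → Prop) (c : X),
      Uncountable X ∧ IsCBER E ∧ Nonempty ({y | E c y} ≃ {l : L | ∃ γ : Γ, l = γ • l₀}) ∧
      (∀ x, ¬ E c x → ∀ y, E x y → y = x) ∧
      (∃ (K : Type) (_ : TopologicalSpace K), CompactSpace K ∧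
        TopologicalSpace.MetrizableSpace K ∧ RealizedOn E K) ∧
      ¬ RealizedOn E (ℕ → Bool) := by
  have hc' : ∀ γ : Γ, Continuous fun y : (ℕ → Bool) ⊕ L => γ • y := fun γ =>
    Continuous.sumMap continuous_id (hc γ)
  have hm : TopologicalSpace.MetrizableSpace ((ℕ → Bool) ⊕ L) := by
    let _m := TopologicalSpace.metrizableSpaceMetric L
    let _m' := TopologicalSpace.metrizableSpaceMetric (ℕ → Bool)
    let _m'' := Metric.metricSpaceSum (X := ℕ → Bool) (Y := L)
    infer_instance
  have hpol : PolishSpace ((ℕ → Bool) ⊕ L) := by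
    let _m := TopologicalSpace.metrizableSpaceMetric ((ℕ → Bool) ⊕ L)
    infer_instance
  let mX : MeasurableSpace ((ℕ → Bool) ⊕ L) := borel _
  have hb : BorelSpace ((ℕ → Bool) ⊕ L) := ⟨rfl⟩
  have hsb : StandardBorelSpace ((ℕ → Bool) ⊕ L) := inferInstance
  refine ⟨(ℕ → Bool) ⊕ L, mX, hsb, fun x y => ∃ γ : Γ, y = γ • x, Sum.inr l₀, ?_,
    orbit_isCBER hc', ⟨?_⟩, ?_, ⟨(ℕ → Bool) ⊕ L, inferInstance, inferInstance, hm, Γ,
      inferInstance, inferInstance, inferInstance, hc', id, Function.bijective_id, ?_,
      fun x y => Iff.rfl⟩, ?_⟩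
  · have : Uncountable (ℕ → Bool) := by
      by_contra hcon
      rw [not_uncountable_iff] at hcon
      exact cantor_open univ isOpen_univ univ_nonempty (Set.countable_univ_iff.2 hcon)
    exact Function.Injective.uncountable (f := (Sum.inl : (ℕ → Bool) → (ℕ → Bool) ⊕ L))
      Sum.inl_injective
  · refine Equiv.symm (Equiv.ofBijective
      (fun l : {l : L | ∃ γ : Γ, l = γ • l₀} => (⟨Sum.inr l.1, ?_⟩ :
        {y : (ℕ → Bool) ⊕ L | ∃ γ : Γ, y = γ • (Sum.inr l₀ : (ℕ → Bool) ⊕ L)})) ⟨?_, ?_⟩)
    · obtain ⟨γ, hγ⟩ := l.2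
      exact ⟨γ, by rw [smul_inr, ← hγ]⟩
    · intro l l' h
      have := congrArg Subtype.val h
      exact Subtype.ext (Sum.inr_injective this)
    · rintro ⟨y, γ, rfl⟩
      exact ⟨⟨γ • l₀, γ, rfl⟩, rfl⟩
  · rintro x hx y ⟨γ, rfl⟩
    rcases x with a | l
    · rfl
    · rw [smul_inr, hfix l ?_ γ]
      rintro ⟨δ, hδ⟩
      exact hx ⟨δ, by rw [smul_inr, hδ]⟩
  · exact measurable_id
  · refine not_realized _ cantor_open ?_ ⟨Sum.inr l₀, Sum.inr (γ₀ • l₀), ?_, γ₀, rfl⟩
    · refine (Set.countable_range (Sum.inr : L → (ℕ → Bool) ⊕ L)).mono ?_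
      rintro (a | l) ⟨y, hy, γ, hγ⟩
      · exact absurd hγ hy
      · exact ⟨l, rfl⟩
    · exact fun h => hγ₀ (Sum.inr_injective h)

/-- The shift of the integers, moved to the natural numbers. -/
def shiftNat (n : ℤ) : Equiv.Perm ℕ :=
  Equiv.intEquivNat.symm.trans ((Equiv.addLeft n).trans Equiv.intEquivNat)

/-- The integers act on the one point compactification of the naturals with one infinite orbit
and a fixed point at infinity. -/
def zAction : Multiplicative ℤ →* Equiv.Perm (OnePoint ℕ) where
  toFun n := (shiftNat n.toAdd).optionCongr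
  map_one' := by
    refine Equiv.ext fun x => ?_
    rcases x with _ | x
    · rfl
    · change some (shiftNat 0 x) = some x
      simp [shiftNat]
  map_mul' m n := by
    refine Equiv.ext fun x => ?_
    rcases x with _ | x
    · rfl
    · change some (shiftNat (m.toAdd + n.toAdd) x) = some (shiftNat m.toAdd (shiftNat n.toAdd x))
      simp [shiftNat]

theorem zAction_some (n : Multiplicative ℤ) (k : ℕ) :
    zAction n ((k : ℕ) : OnePoint ℕ) = ((shiftNat n.toAdd k : ℕ) : OnePoint ℕ) := rfl

theorem zAction_infty (n : Multiplicative ℤ) : zAction n OnePoint.infty = OnePoint.infty := rfl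

theorem zAction_continuous (n : Multiplicative ℤ) : Continuous (zAction n) := by
  have : (zAction n : OnePoint ℕ → OnePoint ℕ) = OnePoint.map (shiftNat n.toAdd) := by
    funext x
    rcases x with _ | x
    · rfl
    · rfl
  rw [this]
  refine OnePoint.continuous_map continuous_of_discreteTopology ?_
  rw [Filter.coclosedCompact_eq_cocompact, Filter.cocompact_eq_cofinite]
  exact (shiftNat n.toAdd).injective.tendsto_cofinite

instance : MulAction (Multiplicative ℤ) (OnePoint ℕ) := MulAction.compHom _ zAction

theorem zsmul_def (n : Multiplicative ℤ) (x : OnePoint ℕ) : n • x = zAction n x := rfl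

/-- **Main theorem.**  For every `n ≥ 2` there is a countable Borel equivalence relation with one
class of size `n`, all other classes being singletons, which has a compact action realization but
none on Cantor space; and there is one with one infinite class, all other classes being
singletons. -/
theorem result :
    (∀ n : ℕ, 2 ≤ n →
      ∃ (X : Type) (_ : MeasurableSpace X) (_ : StandardBorelSpace X) (E : X → X → Prop) (c : X),
        Uncountable X ∧ IsCBER E ∧ {y | E c y}.ncard = n ∧
        (∀ x, ¬ E c x → ∀ y, E x y → y = x) ∧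
        (∃ (K : Type) (_ : TopologicalSpace K), CompactSpace K ∧
          TopologicalSpace.MetrizableSpace K ∧ RealizedOn E K) ∧
        ¬ RealizedOn E (ℕ → Bool)) ∧
    (∃ (X : Type) (_ : MeasurableSpace X) (_ : StandardBorelSpace X) (E : X → X → Prop) (c : X),
        Uncountable X ∧ IsCBER E ∧ {y | E c y}.Infinite ∧
        (∀ x, ¬ E c x → ∀ y, E x y → y = x) ∧
        (∃ (K : Type) (_ : TopologicalSpace K), CompactSpace K ∧
          TopologicalSpace.MetrizableSpace K ∧ RealizedOn E K) ∧
        ¬ RealizedOn E (ℕ → Bool)) := by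
  constructor
  · intro n hn
    let i0 : Fin n := ⟨0, by omega⟩
    let i1 : Fin n := ⟨1, by omega⟩
    have hall : ∀ l : Fin n, ∃ γ : Equiv.Perm (Fin n), l = γ • i0 := fun l =>
      ⟨Equiv.swap i0 l, by simp⟩
    obtain ⟨X, mX, sX, E, c, h1, h2, ⟨e⟩, h3, h4, h5⟩ :=
      example_main (Γ := Equiv.Perm (Fin n)) (L := Fin n)
        (fun γ => continuous_of_discreteTopology) i0 (Equiv.swap i0 i1)
        (by simp [i0, i1]) (fun l hl => absurd (hall l) hl)
    refine ⟨X, mX, sX, E, c, h1, h2, ?_, h3, h4, h5⟩
    have hset : {l : Fin n | ∃ γ : Equiv.Perm (Fin n), l = γ • i0} = univ := by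
      ext l; simpa using hall l
    rw [← Nat.card_coe_set_eq, Nat.card_congr e, hset]
    simp
  · have hall : ∀ k : ℕ, ∃ γ : Multiplicative ℤ, ((k : ℕ) : OnePoint ℕ) =
        γ • ((0 : ℕ) : OnePoint ℕ) := fun k =>
      ⟨Multiplicative.ofAdd (Equiv.intEquivNat.symm k - Equiv.intEquivNat.symm 0), by
        rw [zsmul_def, zAction_some]
        simp [shiftNat]⟩
    have hc : Countable (OnePoint ℕ) := inferInstanceAs (Countable (Option ℕ))
    obtain ⟨X, mX, sX, E, c, h1, h2, ⟨e⟩, h3, h4, h5⟩ :=
      example_main (Γ := Multiplicative ℤ) (L := OnePoint ℕ)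
        (fun γ => zAction_continuous γ) ((0 : ℕ) : OnePoint ℕ) (Multiplicative.ofAdd 1)
        (by
          rw [zsmul_def, zAction_some]
          intro h
          have := OnePoint.coe_injective h
          simp [shiftNat] at this
          have h2 := congrArg Equiv.intEquivNat.symm this
          rw [Equiv.symm_apply_apply] at h2
          omega)
        (by
          intro l hl γ
          rcases l with _ | l
          · rfl
          · exact absurd (hall l) hl)
    refine ⟨X, mX, sX, E, c, h1, h2, ?_, h3, h4, h5⟩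
    rw [← Set.infinite_coe_iff]
    have : Infinite {l : OnePoint ℕ | ∃ γ : Multiplicative ℤ, l = γ • ((0 : ℕ) : OnePoint ℕ)} :=
      Infinite.of_injective (fun k : ℕ => ⟨((k : ℕ) : OnePoint ℕ), hall k⟩) (by
        intro a b h
        exact OnePoint.coe_injective (congrArg Subtype.val h))
    exact Infinite.of_injective e.symm e.symm.injective

end Pool.Agent.Results.MP_04fd10_lc.NotOnCantor
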